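import Mathlib
import Pool.Agent.Q205.RP.GC

/-!
# Cycles of almost every perturbation of the maps `ax+b`

For `ω : ℤ → {0, 1}` let `U a b ω x = T a b (x + ω x)`, where `T a b` is the map `x / 2` (`x` even),
`(a x + b) / 2` (`x` odd); `ω = 0` gives `T a b` itself. For almost every `ω` (independent fair
coins) and all odd `a ≥ 3` and odd `b` at once, `U a b ω` has only finitely many cycles in `ℤ`.
-/

set_option autoImplicit false

open MeasureTheory Finset

namespace Pool.Agent.Results.MP_dee342_nt.AlmostEveryPerturbation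

/-- The map `x / 2` for even `x`, `(a x + b) / 2` for odd `x`. -/
def T (a b x : ℤ) : ℤ := if x % 2 = 0 then x / 2 else (a * x + b) / 2

/-- The perturbed map: the argument `x` is replaced by `x + ω x`, with `ω x` equal to `0` or
`1`. -/
def U (a b : ℤ) (ω : ℤ → Fin 2) (x : ℤ) : ℤ := T a b (x + ((ω x : ℕ) : ℤ))

/-- The law of independent fair coins, one for each integer. -/
noncomputable def coins : Measure (ℤ → Fin 2) :=
  Measure.infinitePi (fun _ : ℤ => (PMF.uniformOfFintype (Fin 2)).toMeasure)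

theorem result : ∀ᵐ ω ∂coins, ∀ a b : ℤ, a % 2 = 1 → b % 2 = 1 → 3 ≤ a →
    {x | ∃ p : ℕ, 1 ≤ p ∧ (U a b ω)^[p] x = x}.Finite := by
  rw [ae_all_iff]
  intro a
  rw [ae_all_iff]
  intro b
  by_cases hab : a % 2 = 1 ∧ b % 2 = 1 ∧ 3 ≤ a
  swap
  · filter_upwards with ω h1 h2 h3
    exact absurd ⟨h1, h2, h3⟩ hab
  obtain ⟨ha, hb, ha3⟩ := hab
  have hG := Q205.RP.lin_tab (a := a) (b := b) ha hb
  obtain ⟨q, rfl⟩ : ∃ q : ℕ, a = q := ⟨a.toNat, by omega⟩
  have hq : q % 2 = 1 := by omega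
  have hcop : Nat.Coprime 2 q := by
    rw [Nat.coprime_two_left]
    exact Nat.odd_iff.2 hq
  have h2 := Q205.RP.main_cycles (q := q) (E := 1) _ (by norm_num) (by omega) hcop
    (fun i => by
      fin_cases i
      · exact ⟨0, by norm_num, by simp⟩
      · exact ⟨1, by norm_num, by simp⟩) (Q205.RP.RR_ge _ _) hG (by
      rw [Fin.prod_univ_two]
      simp
      intro h
      have h3 : (q : ℝ) = ((4 : ℕ) : ℝ) := by rw [h]; norm_num
      have h4 : q = 4 := by exact_mod_cast h3
      omega)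
  filter_upwards [h2] with ω hω2 _ _ _
  have hU : Q205.RP.Tn (fun (x : ℤ) (c : Fin 2) => Q205.RP.tab q b (x + ((c : ℕ) : ℤ))) ω =
      U q b ω := rfl
  rw [hU] at hω2
  apply hω2.subset
  rintro x ⟨p, h4, h5⟩
  exact ⟨p, h4, h5⟩

end Pool.Agent.Results.MP_dee342_nt.AlmostEveryPerturbation
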