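import Pool.Agent.Q74.BL.Fin

/-!
# Whole blocks of integers, and their images under `n ↦ 3^a n`, merge: the exact order

`T x = x / 2`, `(3 x + 1) / 2` on the integers. For a random integer `n` of an interval consider the whole family

  `3 ^ a * n + b`, `0 ≤ a ≤ A`, `|b| ≤ B`

(for `A = 0` this is the block of the `2 B + 1` consecutive integers around `n`), and the number `values` of the
different integers `T^t (3 ^ a * n + b)`. We find the exact order of the probability that they are not all equal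
and of the mean number of values, for all `A`, `B`, `t` and all intervals: with `R = 1 + A + log (1 + B)`

* the family has merged into one integer after `t` steps except for a proportion of the `n` which is between
  `c min (1, R / √t)` and `C R / √t`;
* the mean number of values is between `1 + c R / √t` and `1 + C R / √t`, as soon as `t` exceeds
  `C (1 + log (1 + A) + log (1 + B))`.

So blocks of length `exp (o (√t))` merge completely, blocks of length `exp (ω √t)`, `ω → ∞`, do not, and a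
block of any length `B ≤ exp (c t)` has only `1 + O (log B / √t)` values on average: after the time `C log B` in which
it shrinks to about `1` place the number of values decreases like `1 / √t`, as for coalescing random walks
which start at the levels of a segment of `R` places.

For a set which is invariant (`x` in `S` iff `T x` in `S`; for instance the basin of a cycle) the whole families
`2 ^ i * 3 ^ a * n + b`, `i ≤ I`, `a ≤ A`, `|b| ≤ B`, are on one side of `S`, except for a proportion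
`O ((1 + I + A + log (1 + B)) / √(log L))` of the `n` of any interval of length `L`, uniformly in `S`.

Proof of the upper bound. The pairs of the family are compared at each step by a potential which decreases
geometrically in the mean: after `O (log A + log B)` steps the family consists of forms `3 ^ a N + b` with few
different `b` at each level `a`; then neighbouring levels are joined in a tree and the meeting rates of pairs are
summed over its edges, which costs `R` and not `R ^ 2`.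
-/

set_option autoImplicit false

namespace Pool.Agent.Results.MP_dee342_nt.BlocksMerge

open Finset

/-- the 3x+1 map on the integers -/
def T (x : ℤ) : ℤ := if x % 2 = 0 then x / 2 else (3 * x + 1) / 2

/-- the number of different integers among `T^t (3 ^ a * n + b)`, `0 ≤ a ≤ A`, `|b| ≤ B` -/
noncomputable def values (A B t : ℕ) (n : ℤ) : ℕ :=
  {y : ℤ | ∃ (a : ℕ) (b : ℤ), a ≤ A ∧ |b| ≤ B ∧ y = T^[t] (3 ^ a * n + b)}.ncard

theorem values_eq (A B t : ℕ) (n : ℤ) : values A B t n = Pool.Agent.Q74.BL.NV A B t n := by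
  unfold values Pool.Agent.Q74.BL.NV
  rw [← Set.ncard_coe_finset]
  congr 1
  ext y
  simp only [Set.mem_ofPred_eq, coe_image, Set.mem_image, mem_coe]
  constructor
  · rintro ⟨a, b, ha, hb, rfl⟩
    exact ⟨(a, b), Pool.Agent.Q74.BL.mem_fam.2 ⟨ha, (abs_le.1 hb).1, (abs_le.1 hb).2⟩, rfl⟩
  · rintro ⟨z, hz, rfl⟩
    obtain ⟨h1, h2, h3⟩ := Pool.Agent.Q74.BL.mem_fam.1 (show (z.1, z.2) ∈ _ from hz)
    exact ⟨z.1, z.2, h1, abs_le.2 ⟨h2, h3⟩, rfl⟩

theorem result : ∃ c C : ℝ, 0 < c ∧ 0 < C ∧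
    -- the proportion of families which have not merged
    (∀ (A B t : ℕ) (M : ℤ) (L : ℕ), 1 ≤ t →
      (2 ^ t ≤ L → ({n : ℤ | M ≤ n ∧ n < M + L ∧ 2 ≤ values A B t n}.ncard : ℝ) ≤
        C * ((1 + A + Real.log (1 + B)) / √t) * L) ∧
      ((A, B) ≠ (0, 0) → 64 * t * 2 ^ t ≤ L →
        c * min 1 ((1 + A + Real.log (1 + B)) / √t) * L ≤
          ({n : ℤ | M ≤ n ∧ n < M + L ∧ 2 ≤ values A B t n}.ncard : ℝ))) ∧
    -- the mean number of values
    (∀ (A B t : ℕ) (M : ℤ) (L : ℕ), (A, B) ≠ (0, 0) → C * (1 + Real.log (1 + A) + Real.log (1 + B)) ≤ t →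
      64 * (t + A) * 2 ^ t ≤ L →
      (1 + c * ((1 + A + Real.log (1 + B)) / √t)) * L ≤ ∑ n ∈ Ico M (M + (L : ℤ)), (values A B t n : ℝ) ∧
      ∑ n ∈ Ico M (M + (L : ℤ)), (values A B t n : ℝ) ≤ (1 + C * ((1 + A + Real.log (1 + B)) / √t)) * L) ∧
    -- invariant sets
    (∀ S : Set ℤ, (∀ x, T x ∈ S ↔ x ∈ S) → ∀ (I A B : ℕ) (M : ℤ) (L : ℕ), 2 ≤ L →
      ({n : ℤ | M ≤ n ∧ n < M + L ∧
        (∃ i j a a' : ℕ, ∃ b b' : ℤ, i ≤ I ∧ j ≤ I ∧ a ≤ A ∧ a' ≤ A ∧ |b| ≤ B ∧ |b'| ≤ B ∧
          2 ^ i * 3 ^ a * n + b ∈ S ∧ 2 ^ j * 3 ^ a' * n + b' ∉ S)}.ncard : ℝ) ≤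
        C * ((1 + I + A + Real.log (1 + B)) / √(Real.log L)) * L) := by
  obtain ⟨C₁, hC₁, h1⟩ := Pool.Agent.Q74.BL.prop_up
  obtain ⟨c₁, hc₁, h2⟩ := Pool.Agent.Q74.BL.lowP
  obtain ⟨C₂, D₂, hC₂, hD₂, h3⟩ := Pool.Agent.Q74.BL.mean_up
  obtain ⟨c₂, D₃, hc₂, hD₃, h4⟩ := Pool.Agent.Q74.BL.mean_low
  obtain ⟨C₅, hC₅, h5⟩ := Pool.Agent.Q74.BL.inv_sets
  have hR : ∀ A B : ℕ, 0 ≤ 1 + (A : ℝ) + Real.log (1 + B) := by
    intro A B
    have h6 : (0 : ℝ) ≤ A := Nat.cast_nonneg A
    have h7 : 0 ≤ Real.log (1 + (B : ℝ)) := Real.log_nonneg (by linarith [(Nat.cast_nonneg B : (0 : ℝ) ≤ B)])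
    linarith
  refine ⟨min c₁ c₂, C₁ + C₂ + D₂ + D₃ + C₅, lt_min hc₁ hc₂, by positivity, fun A B t M L ht => ⟨fun hL => ?_,
    fun hAB hL => ?_⟩, fun A B t M L hAB ht hL => ?_, fun S hS I A B M L hL => ?_⟩
  · simp only [values_eq]
    refine (h1 A B t ht M L hL).trans ?_
    have h6 : 0 ≤ (1 + (A : ℝ) + Real.log (1 + B)) / √t := div_nonneg (hR A B) (Real.sqrt_nonneg _)
    apply mul_le_mul_of_nonneg_right _ (Nat.cast_nonneg L)
    apply mul_le_mul_of_nonneg_right _ h6
    linarith
  · simp only [values_eq]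
    refine le_trans ?_ (h2 A B t hAB ht M L hL)
    have h6 : 0 ≤ min 1 ((1 + (A : ℝ) + Real.log (1 + B)) / √t) :=
      le_min zero_le_one (div_nonneg (hR A B) (Real.sqrt_nonneg _))
    apply mul_le_mul_of_nonneg_right _ (Nat.cast_nonneg L)
    exact mul_le_mul_of_nonneg_right (min_le_left _ _) h6
  · simp only [values_eq]
    have hlA : 0 ≤ Real.log (1 + (A : ℝ)) := Real.log_nonneg (by linarith [(Nat.cast_nonneg A : (0 : ℝ) ≤ A)])
    have hlB : 0 ≤ Real.log (1 + (B : ℝ)) := Real.log_nonneg (by linarith [(Nat.cast_nonneg B : (0 : ℝ) ≤ B)])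
    set Y := 1 + Real.log (1 + (A : ℝ)) + Real.log (1 + (B : ℝ)) with hY
    have hY1 : 1 ≤ Y := by linarith
    have hC : ∀ D : ℝ, 0 ≤ D → D ≤ C₁ + C₂ + D₂ + D₃ + C₅ → D * Y ≤ t := fun D _ hD =>
      (mul_le_mul_of_nonneg_right hD (by linarith)).trans ht
    have ht1 : 1 ≤ t := by
      by_contra h
      have h0 : t = 0 := by omega
      have h7 : 0 < (C₁ + C₂ + D₂ + D₃ + C₅) * Y := by positivity
      rw [h0, Nat.cast_zero] at ht
      linarith
    have h6 : 0 ≤ (1 + (A : ℝ) + Real.log (1 + B)) / √t := div_nonneg (hR A B) (Real.sqrt_nonneg _)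
    have hL0 : (0 : ℝ) ≤ L := Nat.cast_nonneg L
    constructor
    · refine le_trans ?_ (h4 A B t hAB ht1 (hC D₃ hD₃.le (by linarith)) M L hL)
      apply mul_le_mul_of_nonneg_right _ hL0
      have := mul_le_mul_of_nonneg_right (min_le_right c₁ c₂) h6
      linarith
    · have hL' : 2 ^ t ≤ L := by
        refine le_trans ?_ hL
        apply Nat.le_mul_of_pos_left
        omega
      have h7 := h3 A B t (hC D₂ hD₂.le (by linarith)) M L hL'
      have h8 : ∑ n ∈ Ico M (M + (L : ℤ)), ((Pool.Agent.Q74.BL.NV A B t n : ℝ) - 1) =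
          ∑ n ∈ Ico M (M + (L : ℤ)), (Pool.Agent.Q74.BL.NV A B t n : ℝ) - L := by
        rw [sum_sub_distrib, sum_const, Int.card_Ico, nsmul_eq_mul, mul_one]
        congr 2
        omega
      rw [h8] at h7
      have h9 : C₂ * ((1 + (A : ℝ) + Real.log (1 + B)) / √t) ≤
          (C₁ + C₂ + D₂ + D₃ + C₅) * ((1 + (A : ℝ) + Real.log (1 + B)) / √t) :=
        mul_le_mul_of_nonneg_right (by linarith) h6
      have h10 := mul_le_mul_of_nonneg_right h9 hL0
      rw [add_mul, one_mul]
      linarith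
  · refine (h5 S hS I A B M L hL).trans ?_
    apply mul_le_mul_of_nonneg_right _ (Nat.cast_nonneg L)
    apply mul_le_mul_of_nonneg_right _
      (div_nonneg (by linarith [hR A B, (Nat.cast_nonneg I : (0 : ℝ) ≤ I)]) (Real.sqrt_nonneg _))
    linarith

end Pool.Agent.Results.MP_dee342_nt.BlocksMerge
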