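import Pool.Agent.Q138.PS.UF
import Pool.Agent.Results.MP_dee342_nt.CycleLengths

/-!
# The lengths of the cycles of the maps `T_{a,b}` and the numbers `⌊α P(n)⌋`

Let `q ≥ 2`. Outside a set of real numbers of Hausdorff dimension at most `q / (q + 1 / (q 2 ^ (q - 1)))` (that is
`8 / 9` for `q = 2`) every `α > 0` has the following property, for all odd `a ≥ 3` and odd `b` (in particular for the maps
`3x + 1` and `5x + 1`) and for ALL integral polynomials `P` of degree `q` with positive leading coefficient and coefficients of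
size at most `N ^ η`: for all but `ε N` of the `n ≤ N` the number `⌊α P(n)⌋` is not the length of a cycle of `T_{a,b}`.
-/

set_option autoImplicit false

namespace Pool.Agent.Results.MP_dee342_nt.LengthsAlongRealMultiples

open Finset Filter Topology
open Pool.Agent.Q138.PS
open Pool.Agent.Results.MP_dee342_nt.CycleLengths (T IsCycle)

/-- `p` is the length of a cycle of `T_{a,b}` on the integers -/
def IsLength (a b : ℤ) (p : ℕ) : Prop := ∃ c : Finset ℤ, IsCycle (T a b) c ∧ c.card = p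

open Classical in
/-- the number of the `1 ≤ n ≤ N` for which `⌊α P(n)⌋` is the length of a cycle of `T_{a,b}` -/
noncomputable def count (a b : ℤ) (α : ℝ) (P : Polynomial ℤ) (N : ℕ) : ℕ :=
  ((Icc 1 N).filter fun n : ℕ => IsLength a b ⌊α * ((P.eval (n : ℤ) : ℤ) : ℝ)⌋₊).card

theorem count_eq (a b : ℤ) (α : ℝ) (P : Polynomial ℤ) (N : ℕ) : (count a b α P N : ℝ) = cnP (IsLength a b) α P N := by
  classical
  unfold count cnP cn
  refine congrArg _ (congrArg _ ?_)
  ext n
  simp only [mem_filter]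

/-- **Theorem.** Let `q ≥ 2`. There is a set `E` of Hausdorff dimension at most `q / (q + 1 / (q 2 ^ (q - 1)))` such that for
each `α > 0` outside `E` and all odd `a ≥ 3` and odd `b` there is `η > 0` such that for each `ε > 0` and all large `N`: for ALL
`P ∈ ℤ[X]` of degree `q` with positive leading coefficient and coefficients of size at most `N ^ η`, at most `ε N` of the
`⌊α P(n)⌋`, `n ≤ N`, are lengths of cycles of `T_{a,b}` on the integers. -/
theorem result (q : ℕ) (hq : 2 ≤ q) :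
    ∃ E : Set ℝ, dimH E ≤ ENNReal.ofReal (q / (q + 1 / ((q : ℝ) * 2 ^ (q - 1)))) ∧ ∀ α : ℝ, 0 < α → α ∉ E →
      ∀ a b : ℤ, a % 2 = 1 → 3 ≤ a → b % 2 = 1 → ∃ η : ℝ, 0 < η ∧ ∀ ε : ℝ, 0 < ε → ∀ᶠ N : ℕ in atTop,
      ∀ P : Polynomial ℤ, P.natDegree = q → 0 < P.leadingCoeff → (∀ j, |((P.coeff j : ℤ) : ℝ)| ≤ (N : ℝ) ^ η) →
      (count a b α P N : ℝ) ≤ ε * N := by
  obtain ⟨E, hE, h⟩ := zero_nat (ι := {k : ℤ × ℤ // k.1 % 2 = 1 ∧ 3 ≤ k.1 ∧ k.2 % 2 = 1}) q hq
    (fun k => IsLength k.1.1 k.1.2) (fun k => zero_of _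
      (Pool.Agent.Results.MP_dee342_nt.CycleLengths.result k.1.1 k.1.2 k.2.1 k.2.2.1 k.2.2.2))
  refine ⟨E, hE, fun α hα hαE a b ha ha3 hb => ?_⟩
  obtain ⟨η, hη, h1⟩ := h α hα hαE ⟨(a, b), ha, ha3, hb⟩
  refine ⟨η, hη, fun ε hε => ?_⟩
  filter_upwards [h1 ε hε] with N hN P hdeg hlead hco
  rw [count_eq]
  exact hN P hdeg hlead hco

end Pool.Agent.Results.MP_dee342_nt.LengthsAlongRealMultiples
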