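import Pool.Agent.Q239.CS.Main

set_option autoImplicit false

/-!
# The trajectories of the Collatz map along arbitrarily sparse typical sequences

Let `c n > 0`, `d n ≥ 1` be any two sequences of real numbers such that `c n * x ^ d n` tends to
infinity for all `x > A` (for instance `x ^ n`, `x ^ (2 ^ n)`, or `c n * x` for any sequence `c n`
tending to infinity, so that the `⌊10 ^ (k n) * x⌋` are initial segments of the decimal expansion of
`x`). For almost all real `x > A` (Lebesgue measure) the sequences `⌊c n * x ^ d n⌋` and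
`-⌊c n * x ^ d n⌋`, however fast they grow, meet the merging class of every positive (negative)
integer infinitely often. So for almost all `x` the problem (all integers reach the five known
cycles) is equivalent to the same problem for almost all (= all but finitely many) terms of these two
sequences.

Let `E n` be independent events whose probabilities do not increase and have infinite sum, and
consider the random set of the natural numbers `n` such that `E n` occurs; it may be very thin. Almost
surely all invariant sets at once have in this random set the frequency which they have among all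
integers, with a uniform error.
-/

namespace Pool.Agent.Results.MP_dee342_nt.SparseTypicalSequences

open MeasureTheory Filter Topology ProbabilityTheory

/-- The Collatz map on the integers. -/
def C (x : ℤ) : ℤ := if x % 2 = 0 then x / 2 else 3 * x + 1

/-- The union of the five known cycles. -/
def Known : Finset ℤ := {1, 4, 2, -1, -2, -5, -14, -7, -20, -10, -17, -50, -25, -74, -37, -110, -55,
  -164, -82, -41, -122, -61, -182, -91, -272, -136, -68, -34, 0}

/-- The trajectory of `x` reaches one of the five known cycles. -/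
def Reaches (x : ℤ) : Prop := ∃ k : ℕ, C^[k] x ∈ Known

/-- The trajectories of `a` and `b` merge. -/
def Merge (a b : ℤ) : Prop := ∃ i j : ℕ, C^[i] a = C^[j] b

/-- The set `S` is invariant under the Collatz map and its inverse. -/
def Invariant (S : Set ℤ) : Prop := ∀ x : ℤ, x ∈ S ↔ C x ∈ S

/-- Among the integers of sign `s` the set `S` has natural density `δ`. -/
def HasDensity (s : ℤ) (S : Set ℤ) (δ : ℝ) : Prop :=
  Tendsto (fun N : ℕ => ({n : ℤ | 0 < s * n ∧ s * n ≤ N ∧ n ∈ S}.ncard : ℝ) / N) atTop (𝓝 δ)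

/-- The number of the `n`, `1 ≤ n ≤ N`, such that the event `E n` occurs and `n ∈ K`. -/
noncomputable def hits {Ω : Type} (E : ℕ → Set Ω) (ω : Ω) (K : Set ℕ) (N : ℕ) : ℕ :=
  {n : ℕ | 1 ≤ n ∧ n ≤ N ∧ ω ∈ E n ∧ n ∈ K}.ncard

theorem C_eq : C = Q239.CS.C := rfl

theorem known_C : ∀ x ∈ Known, C x ∈ Known := by decide

theorem known_iter (k : ℕ) : ∀ x ∈ Known, C^[k] x ∈ Known := by
  induction k with
  | zero => intro x hx; exact hx
  | succ k ih =>
    intro x hx
    rw [Function.iterate_succ_apply]
    exact ih _ (known_C x hx)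

theorem reaches_C (x : ℤ) : Reaches x ↔ Reaches (C x) := by
  constructor
  · rintro ⟨k, hk⟩
    refine ⟨k, ?_⟩
    rw [← Function.iterate_succ_apply, Function.iterate_succ_apply']
    exact known_C _ hk
  · rintro ⟨k, hk⟩
    exact ⟨k + 1, by rw [Function.iterate_succ_apply]; exact hk⟩

theorem reaches_zero : Reaches 0 := ⟨0, by decide⟩

theorem merge_reaches {a b : ℤ} (h : Merge a b) (ha : Reaches a) : Reaches b :=
  (Q239.CS.merge_mem (S := {x : ℤ | Reaches x}) reaches_C h).1 ha

/-- (1) Let `0 ≤ A`, `c n > 0`, `d n ≥ 1` and suppose that `c n * x ^ d n → ∞` for all `x > A`. Then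
for almost all real `x > A` and both signs `s` the trajectory of `s * ⌊c n * x ^ d n⌋` merges, for
infinitely many `n`, with the trajectory of `m`, for every integer `m` of sign `s`; so all integers
reach the five known cycles if and only if all but finitely many of the `⌊c n * x ^ d n⌋` and of the
`-⌊c n * x ^ d n⌋` do.
(2) Let the events `E n` of a probability space be independent, with nonincreasing probabilities of
infinite sum, and consider for both signs `s` the random set of the `n` for which `E n` occurs. Almost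
surely this set is infinite, and for every `ε > 0` there is `N₀` such that, for all `N ≥ N₀` and ALL
invariant sets `S`, of natural density `δ` among the integers of sign `s`, the number of the `n ≤ N` of
the random set with `s * n ∈ S` is `δ` times the number of all `n ≤ N` of the random set, up to `ε`
times this number. So almost surely all integers reach the five known cycles if and only if `n` and
`-n` do, for all but finitely many members `n` of the random set. -/
theorem result :
    (∀ (A : ℝ) (c d : ℕ → ℝ), 0 ≤ A → (∀ n, 0 < c n) → (∀ n, 1 ≤ d n) →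
      (∀ x : ℝ, A < x → Tendsto (fun n => c n * x ^ d n) atTop atTop) →
      ∀ᵐ x : ℝ, A < x →
        (∀ s : ℤ, (s = 1 ∨ s = -1) → ∀ m : ℤ, 0 < s * m →
          ∃ᶠ n in atTop, Merge (s * ⌊c n * x ^ d n⌋) m) ∧
        ((∀ y : ℤ, Reaches y) ↔
          ∀ᶠ n in atTop, Reaches ⌊c n * x ^ d n⌋ ∧ Reaches (-⌊c n * x ^ d n⌋))) ∧
    (∀ (Ω : Type) [MeasurableSpace Ω] (μ : Measure Ω) [IsProbabilityMeasure μ] (E : ℕ → Set Ω),
      (∀ n, MeasurableSet (E n)) → iIndepSet E μ → (Antitone fun n => μ.real (E n)) →
      (¬ Summable fun n => μ.real (E n)) →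
      ∀ᵐ ω ∂μ,
        (∀ s : ℤ, (s = 1 ∨ s = -1) → Tendsto (fun N => hits E ω Set.univ N) atTop atTop ∧
          ∀ ε : ℝ, 0 < ε → ∃ N₀ : ℕ, ∀ N : ℕ, N₀ ≤ N → ∀ S : Set ℤ, Invariant S →
            ∃ δ : ℝ, HasDensity s S δ ∧
              |(hits E ω {n : ℕ | s * (n : ℤ) ∈ S} N : ℝ) - δ * hits E ω Set.univ N|
                ≤ ε * hits E ω Set.univ N) ∧
        ((∀ y : ℤ, Reaches y) ↔ ∀ᶠ n : ℕ in atTop, ω ∈ E n → Reaches n ∧ Reaches (-(n : ℤ)))) := by
  constructor
  · intro A c d hA hc hd hT
    filter_upwards [Q239.CS.sparse hA c d hc hd hT] with x hx hxA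
    refine ⟨fun s hs m hm => hx hxA s hs m hm, fun h => Eventually.of_forall fun n => ⟨h _, h _⟩,
      fun h y => ?_⟩
    rcases lt_trichotomy y 0 with hy | rfl | hy
    · obtain ⟨n, h1, h2⟩ := ((hx hxA (-1) (Or.inr rfl) y (by omega)).and_eventually h).exists
      rw [neg_one_mul] at h1
      exact merge_reaches h1 h2.2
    · exact reaches_zero
    · obtain ⟨n, h1, h2⟩ := ((hx hxA 1 (Or.inl rfl) y (by omega)).and_eventually h).exists
      rw [one_mul] at h1
      exact merge_reaches h1 h2.1
  · intro Ω _ μ _ E hm hind hanti hdiv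
    filter_upwards [Q239.CS.poll_uniform hm hind hanti hdiv (Or.inl rfl : (1 : ℤ) = 1 ∨ (1 : ℤ) = -1),
      Q239.CS.poll_uniform hm hind hanti hdiv (Or.inr rfl : (-1 : ℤ) = 1 ∨ (-1 : ℤ) = -1)]
      with ω hω1 hω2
    have key : ∀ s : ℤ, (s = 1 ∨ s = -1) → Tendsto (fun N => Q239.CS.hits E ω Set.univ N) atTop atTop ∧
        ∀ ε : ℝ, 0 < ε → ∃ N₀ : ℕ, ∀ N : ℕ, N₀ ≤ N → ∀ S : Set ℤ, (∀ x : ℤ, x ∈ S ↔ Q239.CS.C x ∈ S) →
          ∀ δ : ℝ, Q239.CS.HasDensity s S δ →
            |(Q239.CS.hits E ω {n : ℕ | s * (n : ℤ) ∈ S} N : ℝ) - δ * Q239.CS.hits E ω Set.univ N|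
              ≤ ε * Q239.CS.hits E ω Set.univ N := by
      rintro s (rfl | rfl)
      · exact hω1
      · exact hω2
    refine ⟨fun s hs => ⟨(key s hs).1, fun ε hε => ?_⟩, fun h => Eventually.of_forall fun n _ => ⟨h _, h _⟩,
      fun h y => ?_⟩
    · obtain ⟨N₀, hN₀⟩ := (key s hs).2 ε hε
      obtain ⟨δ, -, hδS, -⟩ := Q239.CS.structure_thm s hs
      exact ⟨N₀, fun N hN S hS => ⟨_, hδS S hS, hN₀ N hN S hS _ (hδS S hS)⟩⟩
    · by_contra hy
      have hy0 : y ≠ 0 := fun e => hy (e ▸ reaches_zero)
      obtain ⟨s, hs, hsy⟩ : ∃ s : ℤ, (s = 1 ∨ s = -1) ∧ 0 < s * y := by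
        rcases lt_or_gt_of_ne hy0 with h1 | h1
        · exact ⟨-1, Or.inr rfl, by omega⟩
        · exact ⟨1, Or.inl rfl, by omega⟩
      obtain ⟨δ, hδ, -, -⟩ := Q239.CS.structure_thm s hs
      obtain ⟨hδ0, hδd⟩ := hδ y hsy
      obtain ⟨hinf, hu⟩ := key s hs
      obtain ⟨N₀, hN₀⟩ := hu (δ y / 2) (half_pos hδ0)
      obtain ⟨n₀, hn₀⟩ := eventually_atTop.1 h
      -- the members of the class of `y` in the random set are smaller than `n₀`
      have hbd : ∀ N : ℕ, Q239.CS.hits E ω {n : ℕ | s * (n : ℤ) ∈ {x : ℤ | Q239.CS.Merge x y}} N ≤ n₀ := by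
        intro N
        have hsub : {n : ℕ | 1 ≤ n ∧ n ≤ N ∧ n ∈ {n : ℕ | ω ∈ E n ∧
            n ∈ {n : ℕ | s * (n : ℤ) ∈ {x : ℤ | Q239.CS.Merge x y}}}} ⊆ (Finset.range n₀ : Set ℕ) := by
          rintro n ⟨_, _, h1, h2⟩
          rw [Finset.coe_range, Set.mem_Iio]
          by_contra hcon
          push Not at hcon
          have h3 := hn₀ n hcon h1
          have h4 : Merge (s * (n : ℤ)) y := h2
          apply hy
          refine merge_reaches h4 ?_
          rcases hs with rfl | rfl
          · rw [one_mul]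
            exact h3.1
          · rw [neg_one_mul]
            exact h3.2
        have h5 := Set.ncard_le_ncard hsub (Finset.finite_toSet _)
        rw [Set.ncard_coe_finset, Finset.card_range] at h5
        exact h5
      have hTr : Tendsto (fun N => (Q239.CS.hits E ω Set.univ N : ℝ)) atTop atTop :=
        tendsto_natCast_atTop_iff.2 hinf
      obtain ⟨N, h1, h2⟩ := ((hTr.eventually_gt_atTop (2 * (n₀ : ℝ) / δ y)).and
        (eventually_ge_atTop N₀)).exists
      have h3 := hN₀ N h2 {x : ℤ | Q239.CS.Merge x y} (Q239.CS.merge_class_inv y) (δ y) hδd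
      have h4 : (Q239.CS.hits E ω {n : ℕ | s * (n : ℤ) ∈ {x : ℤ | Q239.CS.Merge x y}} N : ℝ) ≤ n₀ := by
        exact_mod_cast hbd N
      rw [abs_le] at h3
      rw [div_lt_iff₀ hδ0] at h1
      nlinarith [h3.1]

end Pool.Agent.Results.MP_dee342_nt.SparseTypicalSequences
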